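import Pool.Agent.W872.SV.Stm

/-!
# The final numerical estimate
-/

set_option autoImplicit false

namespace Pool.Agent.W366.SV

open Filter Topology

theorem root (x : ℝ) (K n : ℕ) (hK : K ≠ 0) (hx : 0 ≤ x) (h : x ^ K ≤ 2 ^ n) :
    x ≤ (2 : ℝ) ^ ((n : ℝ) / (K : ℝ)) := by
  have h1 : (x ^ K) ^ ((K : ℝ)⁻¹) = x := Real.pow_rpow_inv_natCast hx hK
  rw [← h1]
  refine (Real.rpow_le_rpow (by positivity) h (by positivity)).trans (le_of_eq ?_)
  rw [← Real.rpow_natCast, ← Real.rpow_mul (by norm_num)]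
  rfl

theorem large (K : ℕ) : ∀ᶠ n : ℕ in atTop, (n : ℝ) ^ K ≤ (2 : ℝ) ^ n := by
  have h1 := tendsto_pow_const_div_const_pow_of_one_lt K (r := (2 : ℝ)) (by norm_num)
  have h2 := h1.eventually_le_const (u := 1) one_pos
  filter_upwards [h2] with n hn
  rwa [div_le_one (by positivity)] at hn

theorem sh (a y z : ℝ) (h : a * (2 : ℝ) ^ y ≤ (2 : ℝ) ^ z) : a ≤ (2 : ℝ) ^ (z - y) := by
  rw [Real.rpow_sub (by norm_num)]
  rwa [le_div_iff₀ (by positivity)]

theorem expA (n m C : ℝ) (hn : 10000 ≤ n) (h1 : n - 239 ≤ 240 * m) (h2 : 240 * m ≤ n)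
    (hC : C = n * (n - 1) / 2) :
    n / 4000 * (n + 4) + C - m * (n - 2 * m) ≤ 199 / 200 * C - 1 := by
  have h3 : (n - 239) / 240 * (n - n / 120) ≤ m * (n - 2 * m) := by
    refine mul_le_mul ?_ ?_ ?_ ?_
    · linarith
    · linarith
    · linarith
    · linarith
  have h4 : 10000 * n ≤ n * n := mul_le_mul_of_nonneg_right hn (by linarith)
  rw [hC]
  nlinarith

theorem expB (n u C : ℝ) (hn : 10000 ≤ n) (h1 : n - 5 ≤ 4 * u) (h2 : 4 * u ≤ n)
    (hC : C = n * (n - 1) / 2) :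
    (1 + 2 * (n / 4000) + n / 4) * u + (2 * (n / 4000) + C) - u * (n - u) ≤
      199 / 200 * C - 1 := by
  have h3 : (n - 5) / 4 * (n / 2 - n / 2000 - 1) ≤ u * (n - u - 1 - n / 2000 - n / 4) := by
    refine mul_le_mul ?_ ?_ ?_ ?_
    · linarith
    · linarith
    · linarith
    · linarith
  have h4 : 10000 * n ≤ n * n := mul_le_mul_of_nonneg_right hn (by linarith)
  rw [hC]
  nlinarith

theorem main : W872.SV.PartNUM := by
  have hev : ∀ᶠ n : ℕ in atTop, (n : ℝ) ^ (4000 : ℕ) ≤ (2 : ℝ) ^ n ∧ 10000 ≤ n :=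
    (large 4000).and (eventually_ge_atTop 10000)
  obtain ⟨n₀, hn₀⟩ := eventually_atTop.1 hev
  refine ⟨n₀, fun n hn a b N ha hb hN => ?_⟩
  obtain ⟨hpow, hbig⟩ := hn₀ n hn
  have hbigR : (10000 : ℝ) ≤ n := by exact_mod_cast hbig
  have hnroot : (n : ℝ) ≤ (2 : ℝ) ^ ((n : ℝ) / 4000) := by
    have := root n 4000 n (by norm_num) (Nat.cast_nonneg n) hpow
    exact_mod_cast this
  have hNroot : (N : ℝ) ≤ (2 : ℝ) ^ ((n : ℝ) / 4) := by
    have h1 : (N : ℝ) ^ 4 ≤ 2 ^ n := by exact_mod_cast hN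
    have := root N 4 n (by norm_num) (Nat.cast_nonneg N) h1
    exact_mod_cast this
  have hC : ((n.choose 2 : ℕ) : ℝ) = (n : ℝ) * ((n : ℝ) - 1) / 2 := Nat.cast_choose_two ℝ n
  generalize hm : n / 240 = m at *
  generalize hu : (n - 2) / 4 = u at *
  generalize hCC : n.choose 2 = C at *
  -- part a
  have hA : (a : ℝ) ≤ (2 : ℝ) ^ (199 / 200 * (C : ℝ) - 1) := by
    have e1 : (a : ℝ) * (2 : ℝ) ^ ((m : ℝ) * ((n : ℝ) - 2 * m)) ≤
        (2 : ℝ) ^ ((n : ℝ) / 4000 * ((n : ℝ) + 4) + C) := by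
      have e2 : (m : ℝ) * ((n : ℝ) - 2 * m) = ((m * (n - 2 * m) : ℕ) : ℝ) := by
        have : 2 * m ≤ n := by omega
        push_cast [Nat.cast_sub this]
        ring
      rw [e2, Real.rpow_natCast]
      have e3 : (a : ℝ) * 2 ^ (m * (n - 2 * m)) ≤ (n : ℝ) ^ 4 * (n.factorial : ℝ) * 2 ^ C := by
        exact_mod_cast ha
      have e4 : (n.factorial : ℝ) ≤ (n : ℝ) ^ n := by exact_mod_cast Nat.factorial_le_pow n
      have e5 : (n : ℝ) ^ 4 * (n.factorial : ℝ) ≤ (2 : ℝ) ^ ((n : ℝ) / 4000 * ((n : ℝ) + 4)) := by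
        calc (n : ℝ) ^ 4 * (n.factorial : ℝ) ≤ (n : ℝ) ^ 4 * (n : ℝ) ^ n :=
              mul_le_mul_of_nonneg_left e4 (by positivity)
          _ = (n : ℝ) ^ (n + 4) := by rw [← pow_add, add_comm]
          _ ≤ ((2 : ℝ) ^ ((n : ℝ) / 4000)) ^ (n + 4) :=
              pow_le_pow_left₀ (Nat.cast_nonneg n) hnroot _
          _ = (2 : ℝ) ^ ((n : ℝ) / 4000 * ((n : ℝ) + 4)) := by
              rw [← Real.rpow_natCast, ← Real.rpow_mul (by norm_num)]
              push_cast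
              rfl
      refine e3.trans ?_
      rw [Real.rpow_add (by norm_num), Real.rpow_natCast]
      exact mul_le_mul_of_nonneg_right e5 (by positivity)
    refine (sh _ _ _ e1).trans (Real.rpow_le_rpow_of_exponent_le (by norm_num) ?_)
    refine expA n m C hbigR ?_ ?_ hC
    · have : n ≤ 240 * m + 239 := by omega
      have : (n : ℝ) ≤ 240 * m + 239 := by exact_mod_cast this
      linarith
    · have : 240 * m ≤ n := by omega
      exact_mod_cast this
  -- part b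
  have hB : (b : ℝ) ≤ (2 : ℝ) ^ (199 / 200 * (C : ℝ) - 1) := by
    have e1 : (b : ℝ) * (2 : ℝ) ^ ((u : ℝ) * ((n : ℝ) - u)) ≤
        (2 : ℝ) ^ ((1 + 2 * ((n : ℝ) / 4000) + (n : ℝ) / 4) * u +
          (2 * ((n : ℝ) / 4000) + C)) := by
      have e2 : (u : ℝ) * ((n : ℝ) - u) = ((u * (n - u) : ℕ) : ℝ) := by
        have : u ≤ n := by omega
        push_cast [Nat.cast_sub this]
        ring
      rw [e2, Real.rpow_natCast]
      have e3 : (b : ℝ) * 2 ^ (u * (n - u)) ≤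
          (2 * (n : ℝ) ^ 2 * N) ^ u * ((n : ℝ) ^ 2 * 2 ^ C) := by
        exact_mod_cast hb
      have e4 : (n : ℝ) ^ 2 ≤ (2 : ℝ) ^ (2 * ((n : ℝ) / 4000)) := by
        calc (n : ℝ) ^ 2 ≤ ((2 : ℝ) ^ ((n : ℝ) / 4000)) ^ 2 :=
              pow_le_pow_left₀ (Nat.cast_nonneg n) hnroot _
          _ = (2 : ℝ) ^ (2 * ((n : ℝ) / 4000)) := by
              rw [← Real.rpow_natCast, ← Real.rpow_mul (by norm_num)]
              refine congrArg (fun x : ℝ => (2 : ℝ) ^ x) ?_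
              push_cast
              ring
      have e5 : 2 * (n : ℝ) ^ 2 * N ≤ (2 : ℝ) ^ (1 + 2 * ((n : ℝ) / 4000) + (n : ℝ) / 4) := by
        rw [Real.rpow_add (by norm_num), Real.rpow_add (by norm_num), Real.rpow_one]
        exact mul_le_mul (mul_le_mul_of_nonneg_left e4 (by norm_num)) hNroot
          (Nat.cast_nonneg N) (by positivity)
      refine e3.trans ?_
      rw [Real.rpow_add (by norm_num), Real.rpow_add (by norm_num) (2 * ((n : ℝ) / 4000)),
        Real.rpow_natCast, Real.rpow_mul (by norm_num), Real.rpow_natCast]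
      refine mul_le_mul (pow_le_pow_left₀ (by positivity) e5 _)
        (mul_le_mul_of_nonneg_right e4 (by positivity)) (by positivity) (by positivity)
    refine (sh _ _ _ e1).trans (Real.rpow_le_rpow_of_exponent_le (by norm_num) ?_)
    refine expB n u C hbigR ?_ ?_ hC
    · have : n ≤ 4 * u + 5 := by omega
      have : (n : ℝ) ≤ 4 * u + 5 := by exact_mod_cast this
      linarith
    · have : 4 * u ≤ n := by omega
      exact_mod_cast this
  have e : (2 : ℝ) ^ (199 / 200 * (C : ℝ)) =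
      (2 : ℝ) ^ (199 / 200 * (C : ℝ) - 1) + (2 : ℝ) ^ (199 / 200 * (C : ℝ) - 1) := by
    rw [Real.rpow_sub (by norm_num), Real.rpow_one]
    ring
  rw [Nat.cast_add, e]
  exact add_le_add hA hB

end Pool.Agent.W366.SV
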